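import Mathlib

/-!
# MP_d7339e_co, Q2: the theta graph `Θ_{3,3,3}` is metrizable

The graph has 1848 consistent path systems.  A search tree with about 9000 nodes, evaluated by the
kernel, shows that every one of them is induced by one of 208 weight functions with values in
`{1, …, 5}`.
-/

namespace Pool.Agent.Results.MP_d7339e_co.Theta333

/-- `l` is the list of vertices of a (simple) path of `G` from `u` to `v`. -/
def IsPathList {V : Type} (G : SimpleGraph V) (u v : V) (l : List V) : Prop :=
  l.head? = some u ∧ l.getLast? = some v ∧ l.IsChain G.Adj ∧ l.Nodup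

/-- A consistent path system: one path `P u v` for each pair of vertices (`P v u` is the same path
traversed backwards), such that every subpath, from `x` to `y`, of a path of the system is
`P x y`. -/
structure IsConsistentPathSystem {V : Type} (G : SimpleGraph V) (P : V → V → List V) : Prop where
  path : ∀ u v, IsPathList G u v (P u v)
  symm : ∀ u v, P v u = (P u v).reverse
  consistent : ∀ u v x y l, l <:+: P u v → l.head? = some x → l.getLast? = some y → l = P x y

/-- The total weight of the edges of the path with vertex list `l`. -/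
def weight {V : Type} (w : Sym2 V → ℝ) : List V → ℝ
  | a :: b :: l => w s(a, b) + weight w (b :: l)
  | _ => 0

/-- `G` is metrizable: every consistent path system is induced by positive edge weights, i.e. the
path `P u v` has minimum weight among all paths from `u` to `v` (ties are allowed). -/
def IsMetrizable {V : Type} (G : SimpleGraph V) : Prop :=
  ∀ P, IsConsistentPathSystem G P → ∃ w : Sym2 V → ℝ, (∀ e ∈ G.edgeSet, 0 < w e) ∧
    ∀ u v l, IsPathList G u v l → weight w (P u v) ≤ weight w l

/-- The graph `Θ_{3,3,3}`: the three paths `0-2-3-1`, `0-4-5-1`, `0-6-7-1` from `s = 0` to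
`t = 1`. -/
def theta333 : SimpleGraph (Fin 8) := SimpleGraph.fromRel (fun a b =>
  (a, b) ∈ [((0 : Fin 8), (2 : Fin 8)), (2, 3), (3, 1), (0, 4), (4, 5), (5, 1), (0, 6), (6, 7),
    (7, 1)])

/-! ### Data -/

/-- a path, its edges, its number, the set of its subpaths, the set of the paths in conflict with
it -/
structure Item where
  /-- vertices -/
  path : List (Fin 8)
  /-- edges -/
  es : List ℕ
  /-- number -/
  bit : ℕ
  /-- subpaths -/
  I : ℕ
  /-- conflicts -/
  C : ℕ

/-- the paths between `u` and `v` -/
structure Block where
  /-- first end -/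
  u : Fin 8
  /-- second end -/
  v : Fin 8
  /-- paths -/
  items : List Item

/-- table of edge numbers -/
def BIG : ℕ := 112173583415656064205642445384118554361851823682463446900158151760579478679807

/-- all simple paths, by pairs of end vertices -/
def blocks : List Block := [
  ⟨0, 1, [⟨[0, 2, 3, 1], [0, 1, 2], 0, 2199042129993, 1649380688310⟩,
    ⟨[0, 4, 5, 1], [3, 4, 5], 1, 75557863725916739347458, 56668397794441782385157⟩,
    ⟨[0, 6, 7, 1], [6, 7, 8], 2, 39614081257132169106010800132, 29710560942849126829508100099⟩]⟩,
  ⟨0, 2, [⟨[0, 2], [0], 3, 8, 48⟩,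
    ⟨[0, 4, 5, 1, 3, 2], [3, 4, 5, 2, 1], 4, 75577463692761260631186, 56722297698866230745965⟩,
    ⟨[0, 6, 7, 1, 3, 2], [6, 7, 8, 2, 1], 5, 39614091292314069790379606308, 29710569723633289653549629659⟩]⟩,
  ⟨0, 3, [⟨[0, 2, 3], [0, 1], 6, 2199023255624, 1649267442096⟩,
    ⟨[0, 4, 5, 1, 3], [3, 4, 5, 2], 7, 75577463391495072523394, 56722296874782253144901⟩,
    ⟨[0, 6, 7, 1, 3], [6, 7, 8, 2], 8, 39614091292160945204023656708, 29710569723499305915355332803⟩]⟩,
  ⟨1, 3, [⟨[1, 3], [2], 24, 16777216, 100663296⟩,
    ⟨[1, 5, 4, 0, 2, 3], [5, 4, 3, 0, 1], 25, 75562763719277170140234, 56736997672350321236917⟩,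
    ⟨[1, 7, 6, 0, 2, 3], [8, 7, 6, 0, 1], 26, 39614083765927645926441222220, 29710577250019713517488013747⟩]⟩,
  ⟨2, 3, [⟨[2, 0, 4, 5, 1, 3], [0, 3, 4, 5, 2], 39, 75577463466811623220362, 56722297924815868156789⟩,
    ⟨[2, 0, 6, 7, 1, 3], [0, 6, 7, 8, 2], 40, 39614091292199226900376322316, 29710569723748132543552913651⟩,
    ⟨[2, 3], [1], 41, 2199023255552, 1649267441664⟩]⟩,
  ⟨1, 2, [⟨[1, 3, 2], [2, 1], 21, 2199042129920, 1649380687872⟩,
    ⟨[1, 5, 4, 0, 2], [5, 4, 3, 0], 22, 75557863800683534230538, 56668398841176862513717⟩,
    ⟨[1, 7, 6, 0, 2], [8, 7, 6, 0], 23, 39614081257170449702851837964, 29710560943097950708926611507⟩]⟩,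
  ⟨0, 4, [⟨[0, 2, 3, 1, 5, 4], [0, 1, 2, 5, 4], 9, 75577463692761260626505, 56722297698866230750646⟩,
    ⟨[0, 4], [3], 10, 1024, 2560⟩,
    ⟨[0, 6, 7, 1, 5, 4], [6, 7, 8, 5, 4], 11, 44895953720892209887041439748, 34332189903906196777545348611⟩]⟩,
  ⟨2, 4, [⟨[2, 0, 4], [0, 3], 42, 4398046512136, 61572651158064⟩,
    ⟨[2, 0, 6, 7, 1, 5, 4], [0, 6, 7, 8, 5, 4], 43, 44895953720930640017463855116, 34332189904155992625242814003⟩,
    ⟨[2, 3, 1, 5, 4], [1, 2, 5, 4], 44, 75577463692761260621824, 56722297698866230722560⟩,
    ⟨[2, 3, 1, 7, 6, 0, 4], [1, 2, 8, 7, 6, 3], 45, 39619229229353310158494762276, 29743966301417787204291103451⟩]⟩,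
  ⟨1, 4, [⟨[1, 3, 2, 0, 4], [2, 1, 0, 3], 27, 288236973374571593, 4035288488961117110⟩,
    ⟨[1, 5, 4], [5, 4], 28, 75557863725916739338240, 56668397794441782362112⟩,
    ⟨[1, 7, 6, 0, 4], [8, 7, 6, 3], 29, 39619219191865531280540173316, 29743957518615980960862013955⟩]⟩,
  ⟨3, 4, [⟨[3, 2, 0, 4], [1, 0, 3], 58, 288236973221479496, 4035288488042564528⟩,
    ⟨[3, 2, 0, 6, 7, 1, 5, 4], [1, 0, 6, 7, 8, 5, 4], 59, 44895956239487669030211438668, 34332206274776668563332511667⟩,
    ⟨[3, 1, 5, 4], [2, 5, 4], 60, 75577463391495072514048, 56722296874782253121536⟩,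
    ⟨[3, 1, 7, 6, 0, 4], [2, 8, 7, 6, 3], 61, 39619229229200150387766723844, 29743966301283772679771228867⟩]⟩,
  ⟨1, 5, [⟨[1, 3, 2, 0, 4, 5], [2, 1, 0, 3, 4], 30, 75562763719275943306313, 56736997672351548070838⟩,
    ⟨[1, 5], [5], 31, 2147483648, 5368709120⟩,
    ⟨[1, 7, 6, 0, 4, 5], [8, 7, 6, 3, 4], 32, 40934606041469973741238887428, 38293537583328432923347900931⟩]⟩,
  ⟨4, 5, [⟨[4, 0, 2, 3, 1, 5], [3, 0, 1, 2, 5], 74, 18908201194002789176393, 113391560197624702200758⟩,
    ⟨[4, 0, 6, 7, 1, 5], [3, 6, 7, 8, 5], 75, 44880502137760260408170660868, 34347641487038146256416127491⟩,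
    ⟨[4, 5], [4], 76, 75557863725914323419136, 56668397794435742564352⟩]⟩,
  ⟨3, 5, [⟨[3, 2, 0, 4, 5], [1, 0, 3, 4], 62, 75562763719274716472392, 56736997672344187067312⟩,
    ⟨[3, 2, 0, 6, 7, 1, 5], [1, 0, 6, 7, 8, 5], 63, 44875328942114024871253131340, 34314166831065054453368205747⟩,
    ⟨[3, 1, 5], [2, 5], 64, 18446744075873812480, 50728546208170639360⟩,
    ⟨[3, 1, 7, 6, 0, 4, 5], [2, 8, 7, 6, 3, 4], 65, 40934616115698080995884541188, 38293546398278026771248831171⟩]⟩,
  ⟨2, 5, [⟨[2, 0, 4, 5], [0, 3, 4], 46, 75557863800681114117128, 56668398841170812230192⟩,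
    ⟨[2, 0, 6, 7, 1, 5], [0, 6, 7, 8, 5], 47, 44875326424133456610808971276, 34314150464191373405250760755⟩,
    ⟨[2, 3, 1, 5], [1, 2, 5], 48, 18447027749875875840, 50729321913636618240⟩,
    ⟨[2, 3, 1, 7, 6, 0, 4, 5], [1, 2, 8, 7, 6, 3, 4], 49, 40934616115851803716566000932, 38293546398412533876977949403⟩]⟩,
  ⟨0, 5, [⟨[0, 2, 3, 1, 5], [0, 1, 2, 5], 12, 18447027749875880009, 50729321913636643254⟩,
    ⟨[0, 4, 5], [3, 4], 13, 75557863725914323428352, 56668397794435742587392⟩,
    ⟨[0, 6, 7, 1, 5], [6, 7, 8, 5], 14, 44875326424095035276479578116, 34314150463941634732157939715⟩]⟩,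
  ⟨0, 6, [⟨[0, 2, 3, 1, 7, 6], [0, 1, 2, 8, 7], 15, 39614091292314069790378721353, 29710569723633289653550514614⟩,
    ⟨[0, 4, 5, 1, 7, 6], [3, 4, 5, 8, 7], 16, 44895953720892209887040840706, 34332189903906196777545947653⟩,
    ⟨[0, 6], [6], 17, 131072, 98304⟩]⟩,
  ⟨0, 7, [⟨[0, 2, 3, 1, 7], [0, 1, 2, 8], 18, 9444877083401286582345, 8264267447666986189238⟩,
    ⟨[0, 4, 5, 1, 7], [3, 4, 5, 8], 19, 4971178528119081358009574402, 4349771767371230418534947333⟩,
    ⟨[0, 6, 7], [6, 7], 20, 39614081257132168796773154816, 29710560942849126597579866112⟩]⟩,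
  ⟨1, 7, [⟨[1, 3, 2, 0, 6, 7], [2, 1, 0, 6, 7], 36, 39614083765927645694456365129, 29710577250019713749472870838⟩,
    ⟨[1, 5, 4, 0, 6, 7], [5, 4, 3, 6, 7], 37, 40934606041469973584204145666, 38293537583328433080382642693⟩,
    ⟨[1, 7], [8], 38, 274877906944, 206158430208⟩]⟩,
  ⟨6, 7, [⟨[6, 0, 2, 3, 1, 7], [6, 0, 1, 2, 8], 93, 9903529906736329998559739977, 59421131109211029445369495990⟩,
    ⟨[6, 0, 4, 5, 1, 7], [6, 3, 4, 5, 8], 94, 24855892640595405698050434050, 54372250984203000966536354309⟩,
    ⟨[6, 7], [7], 95, 39614081257132168796771975168, 29710560942849126597578981376⟩]⟩,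
  ⟨2, 7, [⟨[2, 0, 4, 5, 1, 7], [0, 3, 4, 5, 8], 54, 4971178528137170523313939466, 4349771767624478732747823669⟩,
    ⟨[2, 0, 6, 7], [0, 6, 7], 55, 39614081257170449393605804040, 29710560943097950476992086064⟩,
    ⟨[2, 3, 1, 5, 4, 0, 6, 7], [1, 2, 5, 4, 3, 6, 7], 56, 40934611078660889671388767378, 38293551435603447922155182957⟩,
    ⟨[2, 3, 1, 7], [1, 2, 8], 57, 9444877083401286320128, 8264267447666984615936⟩]⟩,
  ⟨3, 7, [⟨[3, 2, 0, 4, 5, 1, 7], [1, 0, 3, 4, 5, 8], 70, 4971179713628709834361152586, 4349788364505999949964794805⟩,
    ⟨[3, 2, 0, 6, 7], [1, 0, 6, 7], 71, 39614083765927645617128079432, 29710577250019713285503156656⟩,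
    ⟨[3, 1, 5, 4, 0, 6, 7], [2, 5, 4, 3, 6, 7], 72, 40934611078584027211535361154, 38293551435392080555598011205⟩,
    ⟨[3, 1, 7], [2, 8], 73, 9444732966014185111552, 8264141345228138217472⟩]⟩,
  ⟨2, 6, [⟨[2, 0, 4, 5, 1, 7, 6], [0, 3, 4, 5, 8, 7], 50, 44895953720911424952252048394, 34332189904175207690454620725⟩,
    ⟨[2, 0, 6], [0, 6], 51, 2251799813816328, 14636698789052464⟩,
    ⟨[2, 3, 1, 5, 4, 0, 6], [1, 2, 5, 4, 3, 6], 52, 77749356526341481895699602, 504935179383382560462723949⟩,
    ⟨[2, 3, 1, 7, 6], [1, 2, 8, 7], 53, 39614091292314069790378426368, 29710569723633289653548744704⟩]⟩,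
  ⟨1, 6, [⟨[1, 3, 2, 0, 6], [2, 1, 0, 6], 33, 147576206597122293833, 959245330232606032310⟩,
    ⟨[1, 5, 4, 0, 6], [5, 4, 3, 6], 34, 77749041773965858394219522, 504934313814353993818823173⟩,
    ⟨[1, 7, 6], [8, 7], 35, 39614081257132169106009620480, 29710560942849126829507215360⟩]⟩,
  ⟨3, 6, [⟨[3, 2, 0, 4, 5, 1, 7, 6], [1, 0, 3, 4, 5, 8, 7], 66, 44895954980189940558137467978, 34332207534074397035406482357⟩,
    ⟨[3, 2, 0, 6], [1, 0, 6], 67, 147576206588513484872, 959245330180953178544⟩,
    ⟨[3, 1, 5, 4, 0, 6], [2, 5, 4, 3, 6], 68, 77749356521536616080221314, 504935179370173577509854021⟩,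
    ⟨[3, 1, 7, 6], [2, 8, 7], 69, 39614091292160945204022476800, 29710569723499305915354447872⟩]⟩,
  ⟨4, 6, [⟨[4, 0, 2, 3, 1, 7, 6], [3, 0, 1, 2, 8, 7], 77, 39616660259968985651707413577, 29746535270802111711078452150⟩,
    ⟨[4, 0, 6], [3, 6], 78, 302231454903657293808640, 1964504456873772408998400⟩,
    ⟨[4, 5, 1, 3, 2, 0, 6], [4, 5, 2, 1, 0, 6], 79, 155422692860377008290533961, 427261843049347034067889590⟩,
    ⟨[4, 5, 1, 7, 6], [4, 5, 8, 7], 80, 44895953720892209887040241664, 34332189903906196777544450048⟩]⟩,
  ⟨4, 7, [⟨[4, 0, 2, 3, 1, 7], [3, 0, 1, 2, 8], 81, 2427296804547433968436297, 33858191251944123458390966⟩,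
    ⟨[4, 0, 6, 7], [3, 6, 7], 82, 39619219191865530970765657088, 29743957518615980728531126784⟩,
    ⟨[4, 5, 1, 3, 2, 0, 6, 7], [4, 5, 2, 1, 0, 6, 7], 83, 42255057796339493688820503113, 36973104717924843904723447222⟩,
    ⟨[4, 5, 1, 7], [4, 5, 8], 84, 4971178528119081358009040896, 4349771767371230418533613568⟩]⟩,
  ⟨5, 7, [⟨[5, 4, 0, 2, 3, 1, 7], [4, 3, 0, 1, 2, 8], 89, 621472878922719873986733129, 8699495199211989910339214262⟩,
    ⟨[5, 4, 0, 6, 7], [4, 3, 6, 7], 90, 40934606041469973427169403904, 38293537583328432687795788288⟩,
    ⟨[5, 1, 3, 2, 0, 6, 7], [5, 2, 1, 0, 6, 7], 91, 42244706367856104329450754121, 36944789405322974995170582966⟩,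
    ⟨[5, 1, 7], [5, 8], 92, 4951760157141521376621887488, 4332790137498831173674074112⟩]⟩,
  ⟨5, 6, [⟨[5, 4, 0, 2, 3, 1, 7, 6], [4, 3, 0, 1, 2, 8, 7], 85, 40274391468314826225316308041, 38953771045949511368227642294⟩,
    ⟨[5, 4, 0, 6], [4, 3, 6], 86, 77749041773965838798431232, 504934313814353944829352448⟩,
    ⟨[5, 1, 3, 2, 0, 6], [5, 2, 1, 0, 6], 87, 154742670933904682318434377, 425542898478999966358561206⟩,
    ⟨[5, 1, 7, 6], [5, 8, 7], 88, 44875326424095035276478382080, 34314150463941634732157042688⟩]⟩]

/-- edge weights (packed) and the set of their shortest paths -/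
def wts : List (ℕ × ℕ) := [
  (19173961, 44977264184934672566899057743),
  (52728393, 45886378172028189620089005131),
  (19698249, 44896266007419518224753894475),
  (19239497, 45886376404743356745793021005),
  (19174985, 44896266154732209259483919437),
  (19174089, 44977265959136471493796570190),
  (19173963, 44977264037045415226748577230),
  (19468937, 44977264188393155605742888015),
  (35951753, 44977265955677988454940157007),
  (19436681, 44896266155020492412193743951),
  (35983946, 45886376401284873706278102095),
  (19468874, 44977264037333698379458421839),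
  (35951690, 44977264184646389414189212751),
  (38048329, 44667778584817517165238428747),
  (21533257, 44972428481620185253182055499),
  (19210825, 44957921370667916996168000589),
  (19178569, 44899892932479265930973705293),
  (19174033, 44977264184790275903859074126),
  (19173970, 44977264037072489601070933454),
  (19763785, 44979681892431410676786144329),
  (52729417, 45132008460300377845182641225),
  (19698377, 44896266158496989849551774794),
  (19175113, 44896267925763949037731603532),
  (52728395, 45886376696144495750100952266),
  (19239499, 45886376255989742528588031308),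
  (54895241, 45886378175486672641887183945),
  (54858449, 45886378175486672650347095114),
  (36020945, 45886378175486672633708291148),
  (21800522, 44896266007131235072043529289),
  (21795923, 44896266007131235072043787466),
  (19441235, 44896266007131235072043279692),
  (19190345, 44880606786610304795716768845),
  (27562569, 74373503824352156414739620939),
  (19173993, 44977264036928094587296294286),
  (23376457, 45134423949999743339259638857),
  (23368281, 44662943766712276725393925322),
  (19182169, 44880549973953418202417620300),
  (23433801, 44670196439879200648367318089),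
  (52736585, 45112665646321835057880380489),
  (19706441, 44902310635364599497410098249),
  (23369289, 45127170395946764284718363721),
  (23368393, 44662942885015556077307700298),
  (19182281, 44880551888956037354390447180),
  (52728409, 45886376696000151863610713290),
  (19698265, 44896266007176042369903109322),
  (19239513, 45886376255872367463308076364),
  (19175001, 44896266007014334995786523980),
  (23368267, 44662943766658462228279862474),
  (19182155, 44880549974070300686488331596),
  (19731657, 44896266158478975451037574223),
  (36214473, 44896267925763808300234843215),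
  (19763850, 44977264040792181418302252111),
  (52729482, 44977265955389705302230312015),
  (36278859, 45886376253683899518837466191),
  (52761675, 45886376400996590553568257103),
  (19174217, 44977256495956761680895157326),
  (19305033, 40934616229155091577587246157),
  (86282825, 40934608570153702953000772683),
  (19173965, 44977264037043159028888380862),
  (19176009, 44895963923277301204143726157),
  (20222537, 44895963775962362767645582411),
  (19505801, 44957921375279321539618677837),
  (54826121, 44667780945856643411985179723),
  (21795977, 44896266154984463615175566411),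
  (19441289, 44896266155020422043449586765),
  (19469009, 44977264188249040417679615054),
  (35951825, 44977265955677706979976029262),
  (54858314, 45886375810989063373342254155),
  (21828170, 44972428334055239862760383563),
  (36020810, 45886376400131952202342343757),
  (35956298, 44899892932191053147008037965),
  (19468883, 44977264037045468003306710478),
  (35951699, 44977264037072436824512800206),
  (19436809, 44896267929222291339091256398),
  (19534410, 45886376257142382558352385101),
  (69506122, 45886378171739906467379160139),
  (35983948, 45886376253395616366127621582),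
  (35952777, 44896267925475525147525018701),
  (19993225, 44896266010878001263597724747),
  (36287177, 44957923146022637427659777101),
  (56956105, 44667780949315126450829009995),
  (36279001, 45886376404599241557058659406),
  (52761817, 45886378172027908119355073614),
  (56988298, 45886375814447546412186084427),
  (52802186, 45886378170875268090383443021),
  (23893642, 44896266154696180462465721419),
  (19707530, 44896266007419447856008950861),
  (23925835, 44972428333766956710050538571),
  (36222539, 44899892784590078959567402061),
  (19731547, 44896266007131287848601396686),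
  (36214363, 44896266007158256669807486414),
  (23368521, 44662946408199558967787660362),
  (19182409, 44880542458057848195470484556),
  (23499337, 46507763667246692921016460361),
  (19305049, 40934616139083099028977755468),
  (86291017, 48516991309623665108922283081),
  (86282841, 40934623032112544812855600330),
  (23368269, 44662943619098016039439049882),
  (19182157, 44880549973779871287081067820),
  (23370313, 45051612532220845563252708937),
  (19176025, 44895963775559387358027730252),
  (20230729, 44898834973630955638718116937),
  (20222553, 44895963775695243014751069386),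
  (21865097, 44979682039996356067207816265),
  (54830729, 45132008460588590629148308553),
  (21800585, 44896266154984393246430868553),
  (21828305, 44972428485132711487558263882),
  (19505873, 44957921375135206351416992844),
  (54826193, 44667780945856361928422728778),
  (21796049, 44896266155038225335731233866),
  (35956433, 44899894703222792925255722060),
  (19441361, 44896266154876517961614648396),
  (54895178, 45886375809836141851689755721),
  (21865034, 44979681887820006133335467081),
  (54830666, 45132006099261251598435890249),
  (54858323, 45886376696144548526659085514),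
  (21828179, 44972428333767009486608409802),
  (36020819, 45886376256016764126352254284),
  (19505747, 44957921226525707322413688140),
  (54826067, 44667779469972949541997126858),
  (35956307, 44899892784617100557331621196),
  (19698505, 44896269091385182381326083146),
  (19175241, 44896258493712838374204793932),
  (19829321, 46507764109977557880710505545),
  (19305035, 40934616139200192619280999756),
  (86283849, 48516991310488373829429245001),
  (86282827, 40934623032112773511269983434),
  (52728397, 45886376548548020764241175706),
  (19239501, 45886376255699242760436589868),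
  (52730441, 45051614893296000607018161737),
  (19176137, 44895965694020771023821098060),
  (20288073, 44898834978242430550912967753),
  (20222665, 44895963779442237904723321930),
  (52728649, 45886368712306962837378573386),
  (19239753, 45886368712306962820773323852),
  (52859465, 40934617999898407469386441801),
  (19305161, 40934617999898407464428774476),
  (86348361, 40934608573612185837359998025),
  (86282953, 40934608573612185914539385930),
  (19698253, 44896266007128978874183591066),
  (19174989, 44896266007128978874183083308),
  (19700297, 44895963775676327016703333961),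
  (19176011, 44895963775676327016703085900),
  (20223561, 44895963775674079614935151689),
  (20222539, 44895963775674079614935442634),
  (27628105, 54568881050883784296500700233),
  (52744777, 45035313283332430269011596361),
  (27562697, 64469983513545611644313936970),
  (52728425, 45886376548426199823688017034),
  (19190473, 44880589667887829942539535436),
  (19239529, 45886376255584138186665895180),
  (27563593, 54721205700408461380825789513),
  (19714633, 44882986711716696908927210569),
  (27562571, 64469983804928736233599411402),
  (19698281, 44896266007031927731580970122),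
  (19190347, 44880587751849242138774750540),
  (19175017, 44896266007014054620319343884),
  (23384649, 45037728773896504483595555913),
  (27570761, 54723623551182981918668239945),
  (23368297, 44662943618994209497395373194),
  (27562585, 64469983804946521933694510282),
  (19182185, 44880549973664907450798728460),
  (19190361, 44880587751732289285959861580),
  (36509449, 44896267929222291339078673487),
  (36573835, 45886376257142382557681296463),
  (69539467, 45886378171739906441609356367),
  (53056588, 45886376253395616366127621199),
  (52992202, 44896267925475525147524998223),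
  (20026570, 44896266010878001263596938319),
  (19176041, 44895963775559089390374505740),
  (20222569, 44895963775542121177174189194),
  (19190349, 44880587751558795147181442348),
  (20238921, 44878302124163438421060523081),
  (27562573, 64469983657359282845503857818),
  (27564617, 54644438910862928030185428553),
  (19305065, 40934616134183183733908186380),
  (86282857, 40934620523355351338110297226),
  (19190601, 44880580232377954765192184908),
  (86299209, 47201698907348880045154374729),
  (27562825, 64469984675546373099971290186),
  (27693641, 55168508238965896294250718281),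
  (22090953, 44896266158442946654019396683),
  (36219081, 44896267925763737931490686029),
  (22123146, 44972428337513722901604213835),
  (36278868, 45886376253395669142685754830),
  (52734090, 44899894702934369035049137229),
  (52761684, 45886376253422637963891844558),
  (71636043, 45886375810700780220632409163),
  (36315723, 45886376252530978014901707853),
  (71603850, 44667780945568360259275334731),
  (36214545, 44896267925763526825270715470),
  (19800714, 44957921227678347352178041933),
  (19731729, 44896266158334860262974301262),
  (86413897, 40934608555165441764455752777),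
  (86283081, 40934608555165441840861291594),
  (19305289, 40934608555165441725203358796),
  (20224585, 44895963775674075216888632905),
  (20222541, 44895963775674075216888931482),
  (19176013, 44895963775674075216889400620),
  (19176265, 44895956259375569382742838348),
  (20222793, 44895965162794921045640553546),
  (19305037, 40934616134298904034190435628),
  (20353609, 45613310119187932320260072521),
  (86282829, 40934620523576251470465606810),
  (86284873, 47231298701328211304082708041),
  (27578953, 54626928375079743063004157001),
  (27562601, 64469983657228454705695958154),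
  (19190377, 44880587751443778534340969740)]

/-! ### Checks -/

/-- neighbours -/
def nb (a : Fin 8) : List (Fin 8) :=
  match a.val with
  | 0 => [2, 4, 6]
  | 1 => [3, 5, 7]
  | 2 => [0, 3]
  | 3 => [2, 1]
  | 4 => [0, 5]
  | 5 => [4, 1]
  | 6 => [0, 7]
  | _ => [6, 1]

/-- all paths from `u` to `v` that avoid `vis` -/
def ext : ℕ → Fin 8 → Fin 8 → List (Fin 8) → List (List (Fin 8))
  | 0, _, _, _ => []
  | n + 1, u, v, vis =>
    if u = v then [[u]]
    else ((nb u).filter (fun x => x ∉ vis)).flatMap
      (fun x => (ext n x v (x :: vis)).map (fun l => u :: l))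

/-- the number of the edge `ab` -/
def eidx (a b : Fin 8) : ℕ := (BIG >>> (4 * (8 * a.val + b.val))) &&& 15

/-- the edge numbers of a path -/
def edgesOf : List (Fin 8) → List ℕ
  | a :: b :: l => eidx a b :: edgesOf (b :: l)
  | _ => []

/-- the weight of an edge -/
def ew (W e : ℕ) : ℕ := (W >>> (3 * e)) &&& 7

/-- sum of weights -/
def sumW (W : ℕ) : List ℕ → ℕ
  | [] => 0
  | e :: l => ew W e + sumW W l

/-- all paths -/
def all : List Item := blocks.flatMap Block.items

/-- contiguous sublists -/
def inf (l : List (Fin 8)) : List (Fin 8) → Bool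
  | [] => l.isPrefixOf []
  | a :: t => l.isPrefixOf (a :: t) || inf l t

/-- the search tree -/
def go : List Block → ℕ → ℕ → Bool
  | [], M, _ => wts.any (fun p => M &&& p.2 == M)
  | b :: bs, M, F => b.items.all (fun it => (it.I &&& F != 0) || go bs (M ||| it.I) (F ||| it.C))

theorem chkGo : go blocks 0 0 = true := by decide +kernel

theorem chkA : blocks.all (fun b => (ext 8 b.u b.v [b.u]).all (fun l =>
    b.items.any (fun it => it.path == l))) = true := by decide +kernel

theorem chkPairs : ∀ u v : Fin 8, u < v → blocks.any (fun b => b.u == u && b.v == v) = true := by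
  decide +kernel

theorem chkEnds : blocks.all (fun b => b.items.all (fun it => it.path.head? == some b.u &&
    it.path.getLast? == some b.v && edgesOf it.path == it.es)) = true := by decide +kernel

theorem chkB : all.all (fun it => all.all (fun it' => !(it.I.testBit it'.bit) ||
    (inf it'.path it.path || inf it'.path.reverse it.path))) = true := by decide +kernel

theorem chkC : all.all (fun it => blocks.all (fun b => b.items.all (fun it' =>
    !(it.C.testBit it'.bit) || b.items.any (fun x => it.I.testBit x.bit && x.path != it'.path))))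
    = true := by decide +kernel

theorem chkSelf : all.all (fun it => it.I.testBit it.bit && Nat.blt it.I (2 ^ 96)) = true := by
  decide +kernel

theorem chkBits : (List.range 96).all (fun j => all.any (fun it => it.bit == j)) = true := by
  decide +kernel

theorem chkW : wts.all (fun p => blocks.all (fun b => b.items.all (fun it =>
    !(p.2.testBit it.bit) || b.items.all (fun it' =>
      Nat.ble (sumW p.1 it.es) (sumW p.1 it'.es))))) = true := by decide +kernel

theorem chkPos : wts.all (fun p => (List.range 9).all (fun e => Nat.blt 0 (ew p.1 e))) = true := by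
  decide +kernel

theorem eidx_symm : ∀ a b : Fin 8, eidx a b = eidx b a := by decide +kernel

/-! ### Paths -/

theorem mem_nb : ∀ a b : Fin 8, theta333.Adj a b → b ∈ nb a := by
  have h : ∀ a b : Fin 8, (a ≠ b ∧ (((a, b) ∈ [((0 : Fin 8), (2 : Fin 8)), (2, 3), (3, 1), (0, 4),
      (4, 5), (5, 1), (0, 6), (6, 7), (7, 1)]) ∨ ((b, a) ∈ [((0 : Fin 8), (2 : Fin 8)), (2, 3),
      (3, 1), (0, 4), (4, 5), (5, 1), (0, 6), (6, 7), (7, 1)]))) → b ∈ nb a := by
    decide +kernel
  intro a b hab
  rw [theta333, SimpleGraph.fromRel_adj] at hab
  exact h a b hab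

theorem adj_eidx : ∀ a b : Fin 8, theta333.Adj a b → eidx a b ∈ List.range 9 := by
  have h : ∀ a b : Fin 8, (a ≠ b ∧ (((a, b) ∈ [((0 : Fin 8), (2 : Fin 8)), (2, 3), (3, 1), (0, 4),
      (4, 5), (5, 1), (0, 6), (6, 7), (7, 1)]) ∨ ((b, a) ∈ [((0 : Fin 8), (2 : Fin 8)), (2, 3),
      (3, 1), (0, 4), (4, 5), (5, 1), (0, 6), (6, 7), (7, 1)]))) → eidx a b ∈ List.range 9 := by
    decide +kernel
  intro a b hab
  rw [theta333, SimpleGraph.fromRel_adj] at hab
  exact h a b hab

theorem mem_ext : ∀ (n : ℕ) (l : List (Fin 8)) (u v : Fin 8) (vis : List (Fin 8)),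
    l.head? = some u → l.getLast? = some v → l.IsChain theta333.Adj → l.Nodup →
    (∀ x ∈ l.tail, x ∉ vis) → l.length ≤ n → l ∈ ext n u v vis := by
  intro n
  induction n with
  | zero =>
    intro l u v vis h1 _ _ _ _ h6
    have : l = [] := List.eq_nil_of_length_eq_zero (by omega)
    rw [this] at h1
    simp at h1
  | succ n ih =>
    intro l u v vis h1 h2 h3 h4 h5 h6
    match l, h1, h2, h3, h4, h5, h6 with
    | a :: t, h1, h2, h3, h4, h5, h6 =>
      simp only [List.head?_cons, Option.some.injEq] at h1
      subst h1
      rw [ext]
      by_cases huv : a = v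
      · rw [if_pos huv]
        match t, h2, h4 with
        | [], _, _ => simp
        | x :: t, h2, h4 =>
          exfalso
          rw [List.getLast?_cons_cons] at h2
          have hmem : v ∈ x :: t := List.mem_of_getLast? h2
          rw [← huv] at hmem
          exact (List.nodup_cons.1 h4).1 hmem
      · rw [if_neg huv]
        match t, h2, h3, h4, h5, h6 with
        | [], h2, _, _, _, _ =>
          simp only [List.getLast?_singleton, Option.some.injEq] at h2
          exact absurd h2 huv
        | x :: t, h2, h3, h4, h5, h6 =>
          rw [List.isChain_cons_cons] at h3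
          rw [List.getLast?_cons_cons] at h2
          rw [List.mem_flatMap]
          refine ⟨x, ?_, ?_⟩
          · rw [List.mem_filter]
            refine ⟨mem_nb _ _ h3.1, ?_⟩
            simpa using h5 x (by simp)
          · rw [List.mem_map]
            refine ⟨x :: t, ?_, rfl⟩
            have h4' := (List.nodup_cons.1 h4).2
            refine ih (x :: t) x v (x :: vis) rfl h2 h3.2 h4' ?_ ?_
            · intro y hy
              simp only [List.tail_cons] at hy
              rw [List.mem_cons]
              rintro (rfl | hyv)
              · exact (List.nodup_cons.1 h4').1 hy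
              · exact h5 y (by simp [hy]) hyv
            · simp only [List.length_cons] at h6 ⊢
              omega

/-- every path between the ends of a block is in the block -/
theorem complete {b : Block} (hb : b ∈ blocks) {l : List (Fin 8)}
    (hl : IsPathList theta333 b.u b.v l) : ∃ it ∈ b.items, it.path = l := by
  obtain ⟨h1, h2, h3, h4⟩ := hl
  have hlen : l.length ≤ 8 := by
    have := h4.length_le_card
    simpa using this
  have hm : l ∈ ext 8 b.u b.v [b.u] := by
    refine mem_ext 8 l b.u b.v [b.u] h1 h2 h3 h4 ?_ hlen
    intro x hx hxu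
    rw [List.mem_singleton] at hxu
    match l, h1, h4, hx with
    | a :: t, h1, h4, hx =>
      simp only [List.head?_cons, Option.some.injEq] at h1
      simp only [List.tail_cons] at hx
      rw [hxu, ← h1] at hx
      exact (List.nodup_cons.1 h4).1 hx
  have h := List.all_eq_true.1 chkA b hb
  have h' := List.all_eq_true.1 h l hm
  obtain ⟨it, hit, heq⟩ := List.any_eq_true.1 h'
  exact ⟨it, hit, by simpa using heq⟩

theorem inf_sound {l p : List (Fin 8)} (h : inf l p = true) : l <:+: p := by
  induction p with
  | nil =>
    rw [inf, List.isPrefixOf_iff_prefix] at h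
    exact h.isInfix
  | cons a t ih =>
    rw [inf, Bool.or_eq_true, List.isPrefixOf_iff_prefix] at h
    rcases h with h | h
    · exact h.isInfix
    · exact (ih h).trans (List.suffix_cons a t).isInfix

theorem ends {b : Block} (hb : b ∈ blocks) {it : Item} (hit : it ∈ b.items) :
    it.path.head? = some b.u ∧ it.path.getLast? = some b.v ∧ edgesOf it.path = it.es := by
  have h := List.all_eq_true.1 (List.all_eq_true.1 chkEnds b hb) it hit
  simp only [Bool.and_eq_true, beq_iff_eq] at h
  exact ⟨h.1.1, h.1.2, h.2⟩

theorem mem_all {b : Block} (hb : b ∈ blocks) {it : Item} (hit : it ∈ b.items) : it ∈ all :=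
  List.mem_flatMap.2 ⟨b, hb, hit⟩

theorem of_all {it : Item} (h : it ∈ all) : ∃ b ∈ blocks, it ∈ b.items := List.mem_flatMap.1 h

/-! ### Soundness of the search -/

section

variable {P : Fin 8 → Fin 8 → List (Fin 8)} (hP : IsConsistentPathSystem theta333 P)

include hP in
theorem chosen_sub {b b' : Block} (hb : b ∈ blocks) (hb' : b' ∈ blocks) {it it' : Item}
    (hit : it ∈ b.items) (hit' : it' ∈ b'.items) (hc : P b.u b.v = it.path)
    (hbit : it.I.testBit it'.bit = true) : P b'.u b'.v = it'.path := by
  have h := List.all_eq_true.1 (List.all_eq_true.1 chkB it (mem_all hb hit)) it' (mem_all hb' hit')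
  rw [hbit] at h
  simp only [Bool.not_true, Bool.false_or, Bool.or_eq_true] at h
  obtain ⟨e1, e2, _⟩ := ends hb' hit'
  rcases h with h | h
  · have h1 := inf_sound h
    rw [← hc] at h1
    exact (hP.consistent _ _ _ _ _ h1 e1 e2).symm
  · have h1 := inf_sound h
    rw [← hc] at h1
    have h2 := hP.consistent _ _ b'.v b'.u _ h1 (by rw [List.head?_reverse]; exact e2)
      (by rw [List.getLast?_reverse]; exact e1)
    rw [hP.symm b'.u b'.v] at h2
    exact (List.reverse_injective h2).symm

include hP in
theorem chosen_conflict {b b' : Block} (hb : b ∈ blocks) (hb' : b' ∈ blocks) {it it' : Item}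
    (hit : it ∈ b.items) (hit' : it' ∈ b'.items) (hc : P b.u b.v = it.path)
    (hbit : it.C.testBit it'.bit = true) : P b'.u b'.v ≠ it'.path := by
  have h := List.all_eq_true.1 (List.all_eq_true.1 (List.all_eq_true.1 chkC it (mem_all hb hit))
    b' hb') it' hit'
  rw [hbit] at h
  simp only [Bool.not_true, Bool.false_or] at h
  obtain ⟨x, hx, hx'⟩ := List.any_eq_true.1 h
  rw [Bool.and_eq_true] at hx'
  have h1 := chosen_sub hP hb hb' hit hx hc hx'.1
  rw [h1]
  simpa using hx'.2

include hP in
theorem go_sound : ∀ (bs : List Block), (∀ b ∈ bs, b ∈ blocks) → ∀ M F : ℕ,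
    (∀ b ∈ blocks, ∀ it ∈ b.items, M.testBit it.bit = true → P b.u b.v = it.path) →
    (∀ b ∈ blocks, ∀ it ∈ b.items, F.testBit it.bit = true → P b.u b.v ≠ it.path) →
    go bs M F = true →
    ∃ p ∈ wts, ∃ N : ℕ, N &&& p.2 = N ∧ (∀ j, M.testBit j = true → N.testBit j = true) ∧
      ∀ b ∈ bs, ∃ it ∈ b.items, P b.u b.v = it.path ∧ N.testBit it.bit = true := by
  intro bs
  induction bs with
  | nil =>
    intro _ M F _ _ hgo
    rw [go] at hgo
    obtain ⟨p, hp, h⟩ := List.any_eq_true.1 hgo
    exact ⟨p, hp, M, by simpa using h, fun _ h => h, fun b hb => absurd hb (List.not_mem_nil)⟩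
  | cons b bs ih =>
    intro hbs M F hM hF hgo
    have hb : b ∈ blocks := hbs b (List.mem_cons_self ..)
    obtain ⟨it, hit, hpath⟩ := complete hb (hP.path b.u b.v)
    have hc : P b.u b.v = it.path := hpath.symm
    rw [go] at hgo
    have h1 := List.all_eq_true.1 hgo it hit
    rw [Bool.or_eq_true] at h1
    -- the first alternative is impossible
    have hself := List.all_eq_true.1 chkSelf it (mem_all hb hit)
    rw [Bool.and_eq_true] at hself
    have hlt : it.I < 2 ^ 96 := by simpa [Nat.blt_eq] using hself.2
    have h0 : it.I &&& F = 0 := by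
      apply Nat.eq_of_testBit_eq
      intro j
      rw [Nat.zero_testBit, Nat.testBit_and]
      by_contra hne
      rw [Bool.not_eq_false, Bool.and_eq_true] at hne
      have hj : j < 96 := by
        by_contra hj
        have h2 : it.I.testBit j = false :=
          Nat.testBit_lt_two_pow (lt_of_lt_of_le hlt (Nat.pow_le_pow_right (by norm_num) (by omega)))
        rw [h2] at hne
        exact Bool.false_ne_true hne.1
      have h3 := List.all_eq_true.1 chkBits j (List.mem_range.2 hj)
      obtain ⟨it', hit', h4⟩ := List.any_eq_true.1 h3
      have h4' : it'.bit = j := by simpa using h4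
      obtain ⟨b', hb', hit''⟩ := of_all hit'
      rw [← h4'] at hne
      exact hF b' hb' it' hit'' hne.2 (chosen_sub hP hb hb' hit hit'' hc hne.1)
    have h2 : go bs (M ||| it.I) (F ||| it.C) = true := by
      rcases h1 with h1 | h1
      · rw [h0] at h1
        simp at h1
      · exact h1
    obtain ⟨p, hp, N, hN, hMN, hall⟩ := ih (fun b' hb' => hbs b' (List.mem_cons_of_mem _ hb'))
      (M ||| it.I) (F ||| it.C)
      (by
        intro b' hb' it' hit' h
        rw [Nat.testBit_or, Bool.or_eq_true] at h
        rcases h with h | h
        · exact hM b' hb' it' hit' h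
        · exact chosen_sub hP hb hb' hit hit' hc h)
      (by
        intro b' hb' it' hit' h
        rw [Nat.testBit_or, Bool.or_eq_true] at h
        rcases h with h | h
        · exact hF b' hb' it' hit' h
        · exact chosen_conflict hP hb hb' hit hit' hc h)
      h2
    refine ⟨p, hp, N, hN, ?_, ?_⟩
    · intro j hj
      exact hMN j (by rw [Nat.testBit_or, hj, Bool.true_or])
    · intro b' hb'
      rcases List.mem_cons.1 hb' with rfl | hb'
      · exact ⟨it, hit, hc, hMN _ (by rw [Nat.testBit_or, hself.1, Bool.or_true])⟩
      · exact hall b' hb'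

end

/-! ### Weights -/

/-- the weight function -/
noncomputable def wf (W : ℕ) : Sym2 (Fin 8) → ℝ :=
  Sym2.lift ⟨fun a b => ((ew W (eidx a b) : ℕ) : ℝ), fun a b => by
    show ((ew W (eidx a b) : ℕ) : ℝ) = ((ew W (eidx b a) : ℕ) : ℝ)
    rw [eidx_symm a b]⟩

theorem weight_eq (W : ℕ) : ∀ l : List (Fin 8), weight (wf W) l = (sumW W (edgesOf l) : ℝ)
  | [] => by simp [weight, edgesOf, sumW]
  | [a] => by simp [weight, edgesOf, sumW]
  | a :: b :: l => by
    rw [weight, edgesOf, sumW, weight_eq W (b :: l)]
    push_cast
    rfl

theorem weight_append {V : Type} (w : Sym2 V → ℝ) : ∀ (l : List V) (a b : V),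
    weight w (l ++ [a, b]) = weight w (l ++ [a]) + w s(a, b)
  | [], a, b => by simp [weight]
  | [x], a, b => by simp [weight]
  | x :: y :: l, a, b => by
    have h := weight_append w (y :: l) a b
    simp only [List.cons_append] at h ⊢
    rw [weight, weight, h]
    ring

theorem weight_reverse {V : Type} (w : Sym2 V → ℝ) : ∀ l : List V,
    weight w l.reverse = weight w l
  | [] => rfl
  | [_] => rfl
  | a :: b :: l => by
    have h := weight_reverse w (b :: l)
    rw [weight, ← h, List.reverse_cons, List.reverse_cons, List.append_assoc]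
    simp only [List.cons_append, List.nil_append]
    rw [weight_append, Sym2.eq_swap, ← List.reverse_cons]
    ring

theorem isChain_reverse {V : Type} (G : SimpleGraph V) {l : List V} (h : l.IsChain G.Adj) :
    l.reverse.IsChain G.Adj := by
  rw [List.isChain_reverse]
  exact h.imp (fun _ _ hab => hab.symm)

theorem IsPathList.reverse {V : Type} {G : SimpleGraph V} {u v : V} {l : List V}
    (h : IsPathList G u v l) : IsPathList G v u l.reverse := by
  obtain ⟨h1, h2, h3, h4⟩ := h
  exact ⟨by rw [List.head?_reverse]; exact h2, by rw [List.getLast?_reverse]; exact h1,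
    isChain_reverse G h3, List.nodup_reverse.2 h4⟩

theorem path_self {V : Type} {G : SimpleGraph V} {u : V} {l : List V}
    (h : IsPathList G u u l) : l = [u] := by
  obtain ⟨h1, h2, _, h4⟩ := h
  match l, h1, h2, h4 with
  | [a], h1, _, _ =>
    simp only [List.head?_cons, Option.some.injEq] at h1
    rw [h1]
  | a :: b :: t, h1, h2, h4 =>
    exfalso
    simp only [List.head?_cons, Option.some.injEq] at h1
    rw [List.getLast?_cons_cons] at h2
    have hmem : u ∈ b :: t := List.mem_of_getLast? h2
    rw [← h1] at hmem
    exact (List.nodup_cons.1 h4).1 hmem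

/-- **Q2 of MP_d7339e_co.** The theta graph `Θ_{3,3,3}` is metrizable: every consistent path system
in it is induced by positive edge weights. -/
theorem result : IsMetrizable theta333 := by
  intro P hP
  obtain ⟨p, hp, N, hN, _, hall⟩ := go_sound hP blocks (fun _ h => h) 0 0
    (by intro b _ it _ h; simp at h) (by intro b _ it _ h; simp at h) chkGo
  refine ⟨wf p.1, ?_, ?_⟩
  · intro e he
    induction e using Sym2.ind with
    | _ a b =>
      rw [SimpleGraph.mem_edgeSet] at he
      have h := List.all_eq_true.1 (List.all_eq_true.1 chkPos p hp) _ (adj_eidx a b he)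
      have h' : 0 < ew p.1 (eidx a b) := by simpa [Nat.blt_eq] using h
      show (0 : ℝ) < ((ew p.1 (eidx a b) : ℕ) : ℝ)
      exact_mod_cast h'
  · have key : ∀ b ∈ blocks, ∀ l, IsPathList theta333 b.u b.v l →
        weight (wf p.1) (P b.u b.v) ≤ weight (wf p.1) l := by
      intro b hb l hl
      obtain ⟨it, hit, hc, hbit⟩ := hall b hb
      obtain ⟨it', hit', hl'⟩ := complete hb hl
      have hS : p.2.testBit it.bit = true := by
        rw [← hN, Nat.testBit_and, Bool.and_eq_true] at hbit
        exact hbit.2
      have h := List.all_eq_true.1 (List.all_eq_true.1 (List.all_eq_true.1 chkW p hp) b hb) it hit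
      rw [hS] at h
      simp only [Bool.not_true, Bool.false_or] at h
      have h2 : sumW p.1 it.es ≤ sumW p.1 it'.es := by
        simpa [Nat.ble_eq] using List.all_eq_true.1 h it' hit'
      rw [hc, ← hl', weight_eq, weight_eq, (ends hb hit).2.2, (ends hb hit').2.2]
      exact_mod_cast h2
    intro u v l hl
    rcases lt_trichotomy u v with h | h | h
    · obtain ⟨b, hb, h2⟩ := List.any_eq_true.1 (chkPairs u v h)
      simp only [Bool.and_eq_true, beq_iff_eq] at h2
      obtain ⟨rfl, rfl⟩ := h2
      exact key b hb l hl
    · subst h
      rw [path_self hl, path_self (hP.path u u)]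
    · obtain ⟨b, hb, h2⟩ := List.any_eq_true.1 (chkPairs v u h)
      simp only [Bool.and_eq_true, beq_iff_eq] at h2
      obtain ⟨rfl, rfl⟩ := h2
      rw [hP.symm b.u b.v, weight_reverse, ← weight_reverse _ l]
      exact key b hb _ hl.reverse

end Pool.Agent.Results.MP_d7339e_co.Theta333
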